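import Pool.Agent.Y342.EFF.Main

/-!
# Every action of a finite group on a finite set extends to a 2-`(v,k,1)` design

For all `k ≥ 3`, all finite groups `G`, all finite `G`-sets `Ω` and all `N` there are a
2-`(v,k,1)` design with `v ≥ N` points and a faithful action of `G` on it by automorphisms, in which
`Ω` is contained: some injection of `Ω` into the set of points commutes with the actions.
-/

namespace Pool.Agent.Results.MP_eff69f_co.EveryActionExtends

theorem result.{u, w} (k : ℕ) (hk : 3 ≤ k) (G : Type u) (Ω : Type w) [Group G] [Finite G]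
    [Finite Ω] [MulAction G Ω] (N : ℕ) :
    ∃ (v : ℕ) (B : Finset (Finset (Fin v))), N ≤ v ∧ k ≤ v ∧ (∀ b ∈ B, b.card = k) ∧
      (∀ x y : Fin v, x ≠ y → ∃! b, b ∈ B ∧ x ∈ b ∧ y ∈ b) ∧
      ∃ φ : G →* Equiv.Perm (Fin v), Function.Injective φ ∧
        (∀ g : G, B.image (fun b => b.image (φ g)) = B) ∧
        ∃ e : Ω → Fin v, Function.Injective e ∧ ∀ (g : G) (ω : Ω), e (g • ω) = φ g (e ω) :=
  Pool.Agent.Y342.EFF.ext_univ k hk G Ω N

end Pool.Agent.Results.MP_eff69f_co.EveryActionExtends
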